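import Mathlib

/-!
# Escape speed and Hilbert space cocycles: discrete time

`Ex s p n F` is the expectation of `F (s i₁ * ⋯ * s iₙ)` for independent letters with the law `p`.
If `c` is a cocycle for an isometric action then `Ex (‖c‖²)` grows linearly with the speed
`inf_v ∑ p i * ‖c (s i) + A (s i) v - v‖²`.
-/

set_option autoImplicit false
set_option linter.unusedSectionVars false

open scoped RealInnerProductSpace

namespace Q290.Cox

/-- expectation over `n` independent letters, the new letter in front -/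
noncomputable def Ex {B : Type*} [Fintype B] {W : Type*} [Group W] (s : B → W) (p : B → ℝ)
    {E : Type*} [AddCommGroup E] [Module ℝ E] : ℕ → (W → E) → E
  | 0, F => F 1
  | n + 1, F => ∑ i, p i • Ex s p n (fun x => F (s i * x))

section Basic

variable {B : Type*} [Fintype B] {W : Type*} [Group W] (s : B → W) (p : B → ℝ)
  {E : Type*} [AddCommGroup E] [Module ℝ E]

theorem Ex_succ (n : ℕ) (F : W → E) :
    Ex s p (n + 1) F = ∑ i, p i • Ex s p n (fun x => F (s i * x)) := rfl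

theorem Ex_zero (F : W → E) : Ex s p 0 F = F 1 := rfl

theorem Ex_add (n : ℕ) (F G : W → E) :
    Ex s p n (fun x => F x + G x) = Ex s p n F + Ex s p n G := by
  induction n generalizing F G with
  | zero => rfl
  | succ n ih =>
    rw [Ex_succ, Ex_succ, Ex_succ, ← Finset.sum_add_distrib]
    refine Finset.sum_congr rfl fun i _ => ?_
    rw [ih (fun x => F (s i * x)) (fun x => G (s i * x)), smul_add]

theorem Ex_lin {E' : Type*} [AddCommGroup E'] [Module ℝ E'] (T : E →ₗ[ℝ] E') (n : ℕ)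
    (F : W → E) : Ex s p n (fun x => T (F x)) = T (Ex s p n F) := by
  induction n generalizing F with
  | zero => rfl
  | succ n ih =>
    rw [Ex_succ, Ex_succ, map_sum]
    refine Finset.sum_congr rfl fun i _ => ?_
    rw [ih (fun x => F (s i * x)), map_smul]

theorem Ex_const (hp1 : ∑ i, p i = 1) (n : ℕ) (e : E) : Ex s p n (fun _ => e) = e := by
  induction n with
  | zero => rfl
  | succ n ih => rw [Ex_succ, ih, ← Finset.sum_smul, hp1, one_smul]

theorem Ex_mono (hp : ∀ i, 0 ≤ p i) (n : ℕ) (F G : W → ℝ) (h : ∀ x, F x ≤ G x) :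
    Ex s p n F ≤ Ex s p n G := by
  induction n generalizing F G with
  | zero => exact h 1
  | succ n ih =>
    rw [Ex_succ, Ex_succ]
    refine Finset.sum_le_sum fun i _ => ?_
    exact mul_le_mul_of_nonneg_left (ih _ _ fun x => h (s i * x)) (hp i)

end Basic

section Coc

variable {B : Type*} [Fintype B] {W : Type*} [Group W] {V : Type*} [NormedAddCommGroup V]
  [InnerProductSpace ℝ V]

/-- An isometric action `A` on a Hilbert space with a cocycle `c` and involutions `s i`. -/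
structure CocData (s : B → W) (A : W → V →ₗᵢ[ℝ] V) (c : W → V) : Prop where
  invol : ∀ i, s i * s i = 1
  one : ∀ v, A 1 v = v
  mul : ∀ x y v, A (x * y) v = A x (A y v)
  coc : ∀ x y, c (x * y) = c x + A x (c y)

variable {s : B → W} {A : W → V →ₗᵢ[ℝ] V} {c : W → V} (h : CocData s A c) (p : B → ℝ)

namespace CocData

include h

theorem c_one : c 1 = 0 := by
  have h1 := h.coc 1 1
  rw [mul_one, h.one] at h1
  exact left_eq_add.mp h1

theorem A_invol (i : B) (v : V) : A (s i) (A (s i) v) = v := by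
  rw [← h.mul, h.invol, h.one]

theorem symm (i : B) (u v : V) : ⟪A (s i) u, v⟫ = ⟪u, A (s i) v⟫ := by
  rw [← (A (s i)).inner_map_map (A (s i) u) v, h.A_invol]

theorem A_c (i : B) : A (s i) (c (s i)) = -c (s i) := by
  have h1 := h.coc (s i) (s i)
  rw [h.invol, h.c_one] at h1
  exact eq_neg_of_add_eq_zero_right h1.symm

/-- twisting by a coboundary -/
theorem twist (v : V) : CocData s A (fun x => c x + A x v - v) where
  invol := h.invol
  one := h.one
  mul := h.mul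
  coc x y := by
    show c (x * y) + A (x * y) v - v = c x + A x v - v + A x (c y + A y v - v)
    rw [h.coc, h.mul, map_sub, map_add]
    abel

end CocData

variable (A c s)

/-- the averaging operator -/
noncomputable def Qop : V →ₗ[ℝ] V := ∑ i, p i • (A (s i)).toLinearMap

/-- the drift vector -/
noncomputable def bet : V := ∑ i, p i • c (s i)

theorem Qop_apply (v : V) : Qop s A p v = ∑ i, p i • A (s i) v := by
  unfold Qop
  simp [LinearMap.sum_apply]

variable {A c s}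

theorem Qop_norm (hp : ∀ i, 0 ≤ p i) (hp1 : ∑ i, p i = 1) (v : V) : ‖Qop s A p v‖ ≤ ‖v‖ := by
  rw [Qop_apply]
  refine (norm_sum_le _ _).trans ?_
  have : ∀ i, ‖p i • A (s i) v‖ = p i * ‖v‖ := by
    intro i
    rw [norm_smul, Real.norm_of_nonneg (hp i), (A (s i)).norm_map]
  simp only [this]
  rw [← Finset.sum_mul, hp1, one_mul]

include h in
theorem Qop_symm (u v : V) : ⟪Qop s A p u, v⟫ = ⟪u, Qop s A p v⟫ := by
  rw [Qop_apply, Qop_apply, sum_inner, inner_sum]
  refine Finset.sum_congr rfl fun i _ => ?_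
  rw [real_inner_smul_left, real_inner_smul_right, h.symm]

/-- iterates -/
noncomputable def qb (s : B → W) (A : W → V →ₗᵢ[ℝ] V) (c : W → V) (p : B → ℝ) (k : ℕ) : V :=
  ((Qop s A p) ^ k) (bet s c p)

theorem qb_zero : qb s A c p 0 = bet s c p := rfl

theorem qb_succ (k : ℕ) : qb s A c p (k + 1) = Qop s A p (qb s A c p k) := by
  unfold qb
  rw [pow_succ']
  rfl

/-- the moments -/
noncomputable def mu (s : B → W) (A : W → V →ₗᵢ[ℝ] V) (c : W → V) (p : B → ℝ) (k : ℕ) : ℝ :=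
  ⟪bet s c p, qb s A c p k⟫

include h in
theorem inner_qb (j k : ℕ) : ⟪qb s A c p j, qb s A c p k⟫ = mu s A c p (j + k) := by
  induction j generalizing k with
  | zero => rw [qb_zero, zero_add]; rfl
  | succ j ih =>
    rw [qb_succ, Qop_symm h, ← qb_succ, ih]
    congr 1
    omega

include h in
theorem mu_pair (hp : ∀ i, 0 ≤ p i) (hp1 : ∑ i, p i = 1) (k : ℕ) :
    0 ≤ mu s A c p (2 * k) + mu s A c p (2 * k + 1) := by
  have h1 : mu s A c p (2 * k) = ‖qb s A c p k‖ ^ 2 := by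
    rw [← real_inner_self_eq_norm_sq, inner_qb h]
    congr 1
    omega
  have h2 : mu s A c p (2 * k + 1) = ⟪qb s A c p k, qb s A c p (k + 1)⟫ := by
    rw [inner_qb h]
    congr 1
    omega
  have h3 : |⟪qb s A c p k, qb s A c p (k + 1)⟫| ≤ ‖qb s A c p k‖ * ‖qb s A c p (k + 1)‖ :=
    abs_real_inner_le_norm _ _
  have h4 : ‖qb s A c p (k + 1)‖ ≤ ‖qb s A c p k‖ := by
    rw [qb_succ]
    exact Qop_norm p hp hp1 _
  have h5 := norm_nonneg (qb s A c p k)
  have h6 := neg_abs_le ⟪qb s A c p k, qb s A c p (k + 1)⟫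
  rw [h1, h2]
  nlinarith [mul_le_mul_of_nonneg_left h4 h5]

/-- sums of the first moments -/
noncomputable def cs' (s : B → W) (A : W → V →ₗᵢ[ℝ] V) (c : W → V) (p : B → ℝ) (n : ℕ) : ℝ :=
  ∑ k ∈ Finset.range n, mu s A c p k

include h in
theorem cs_even_nonneg (hp : ∀ i, 0 ≤ p i) (hp1 : ∑ i, p i = 1) (n : ℕ) :
    0 ≤ cs' s A c p (2 * n) := by
  unfold cs'
  induction n with
  | zero => simp
  | succ n ih =>
    rw [show 2 * (n + 1) = 2 * n + 1 + 1 by ring, Finset.sum_range_succ, Finset.sum_range_succ]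
    have := mu_pair h p hp hp1 n
    linarith

include h in
theorem cs_nonneg (hp : ∀ i, 0 ≤ p i) (hp1 : ∑ i, p i = 1) (n : ℕ) : 0 ≤ cs' s A c p n := by
  rcases Nat.even_or_odd' n with ⟨k, hk | hk⟩
  · rw [hk]; exact cs_even_nonneg h p hp hp1 k
  · rw [hk]
    unfold cs'
    rw [Finset.sum_range_succ]
    have h1 := cs_even_nonneg h p hp hp1 k
    have h2 : mu s A c p (2 * k) = ‖qb s A c p k‖ ^ 2 := by
      rw [← real_inner_self_eq_norm_sq, inner_qb h]
      congr 1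
      omega
    have h3 := sq_nonneg ‖qb s A c p k‖
    unfold cs' at h1
    linarith

include h in
theorem mean_eq (hp1 : ∑ i, p i = 1) (n : ℕ) :
    Ex s p n c = ∑ k ∈ Finset.range n, qb s A c p k := by
  have hrec : ∀ n, Ex s p (n + 1) c = bet s c p + Qop s A p (Ex s p n c) := by
    intro n
    rw [Ex_succ]
    have h1 : ∀ i, Ex s p n (fun x => c (s i * x)) = c (s i) + A (s i) (Ex s p n c) := by
      intro i
      have h2 : (fun x => c (s i * x)) = fun x => (fun _ => c (s i)) x +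
          (fun x => (A (s i)).toLinearMap (c x)) x := by
        funext x
        exact h.coc (s i) x
      rw [h2, Ex_add, Ex_const s p hp1, Ex_lin]
      rfl
    simp only [h1, smul_add, Finset.sum_add_distrib]
    rw [Qop_apply]
    rfl
  induction n with
  | zero => rw [Ex_zero, h.c_one]; simp
  | succ n ih =>
    rw [hrec, ih, map_sum, Finset.sum_range_succ', qb_zero, add_comm]
    congr 1
    exact Finset.sum_congr rfl fun k _ => (qb_succ p k).symm

include h in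
theorem inner_mean (hp1 : ∑ i, p i = 1) (n : ℕ) :
    ⟪bet s c p, Ex s p n c⟫ = cs' s A c p n := by
  rw [mean_eq h p hp1, inner_sum]
  rfl

include h in
theorem sq_rec (hp1 : ∑ i, p i = 1) (n : ℕ) :
    Ex s p (n + 1) (fun x => ‖c x‖ ^ 2) = Ex s p n (fun x => ‖c x‖ ^ 2) +
      ∑ i, p i * ‖c (s i)‖ ^ 2 - 2 * cs' s A c p n := by
  rw [Ex_succ]
  have h1 : ∀ i, Ex s p n (fun x => ‖c (s i * x)‖ ^ 2) =
      ‖c (s i)‖ ^ 2 + Ex s p n (fun x => ‖c x‖ ^ 2) - 2 * ⟪c (s i), Ex s p n c⟫ := by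
    intro i
    have h2 : (fun x => ‖c (s i * x)‖ ^ 2) = fun x => (fun _ => ‖c (s i)‖ ^ 2) x +
        (fun x => (fun x => ‖c x‖ ^ 2) x +
          (fun x => (-2 • (innerₛₗ ℝ (c (s i))) : V →ₗ[ℝ] ℝ) (c x)) x) x := by
      funext x
      have h3 : ‖c (s i * x)‖ ^ 2 = ‖c (s i)‖ ^ 2 + 2 * ⟪c (s i), A (s i) (c x)⟫ +
          ‖c x‖ ^ 2 := by
        rw [h.coc, norm_add_sq_real, (A (s i)).norm_map]
      rw [h3, ← h.symm, h.A_c, inner_neg_left]
      simp
      ring
    rw [h2, Ex_add, Ex_const s p hp1, Ex_add, Ex_lin]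
    simp
    ring
  simp only [h1, smul_eq_mul]
  rw [← inner_mean h p hp1]
  unfold bet
  rw [sum_inner]
  simp only [real_inner_smul_left]
  have h4 : ∑ i, p i * (‖c (s i)‖ ^ 2 + Ex s p n (fun x => ‖c x‖ ^ 2) -
      2 * ⟪c (s i), Ex s p n c⟫) = ∑ i, p i * ‖c (s i)‖ ^ 2 +
      (∑ i, p i) * Ex s p n (fun x => ‖c x‖ ^ 2) - 2 * ∑ i, p i * ⟪c (s i), Ex s p n c⟫ := by
    rw [Finset.sum_mul, Finset.mul_sum, ← Finset.sum_add_distrib, ← Finset.sum_sub_distrib]
    refine Finset.sum_congr rfl fun i _ => ?_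
    ring
  rw [h4, hp1]
  ring

include h in
theorem sq_le (hp : ∀ i, 0 ≤ p i) (hp1 : ∑ i, p i = 1) (n : ℕ) :
    Ex s p n (fun x => ‖c x‖ ^ 2) ≤ n * ∑ i, p i * ‖c (s i)‖ ^ 2 := by
  induction n with
  | zero => rw [Ex_zero, h.c_one]; simp
  | succ n ih =>
    rw [sq_rec h p hp1]
    have := cs_nonneg h p hp hp1 n
    push_cast
    linarith

variable (s A c)

/-- the energy of the twisted cocycle -/
noncomputable def J (v : V) : ℝ := ∑ i, p i * ‖c (s i) + A (s i) v - v‖ ^ 2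

variable {s A c}

include h in
theorem J_eq (hp1 : ∑ i, p i = 1) (v : V) : J s A c p v = ∑ i, p i * ‖c (s i)‖ ^ 2 -
    4 * ⟪bet s c p, v⟫ + 2 * (‖v‖ ^ 2 - ⟪Qop s A p v, v⟫) := by
  have h1 : ∀ i, ‖c (s i) + A (s i) v - v‖ ^ 2 = ‖c (s i)‖ ^ 2 - 4 * ⟪c (s i), v⟫ +
      2 * (‖v‖ ^ 2 - ⟪A (s i) v, v⟫) := by
    intro i
    rw [add_sub_assoc, norm_add_sq_real, norm_sub_sq_real, (A (s i)).norm_map, inner_sub_right,
      ← h.symm, h.A_c, inner_neg_left]
    ring
  unfold J bet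
  rw [Qop_apply, sum_inner, sum_inner]
  simp only [h1, real_inner_smul_left]
  have h2 : ‖v‖ ^ 2 = ∑ i, p i * ‖v‖ ^ 2 := by rw [← Finset.sum_mul, hp1, one_mul]
  rw [h2, Finset.mul_sum, ← Finset.sum_sub_distrib, ← Finset.sum_sub_distrib, Finset.mul_sum,
    ← Finset.sum_add_distrib]
  rw [← h2]
  refine Finset.sum_congr rfl fun i _ => ?_
  ring

/-- the almost optimal vectors -/
noncomputable def wv (s : B → W) (A : W → V →ₗᵢ[ℝ] V) (c : W → V) (p : B → ℝ) (i : ℕ) : V :=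
  Ex s p i c + (1 / 2 : ℝ) • qb s A c p i

include h in
theorem J_wv (hp : ∀ i, 0 ≤ p i) (hp1 : ∑ i, p i = 1) (i : ℕ) :
    J s A c p (wv s A c p i) ≤ (Ex s p (2 * i + 2) (fun x => ‖c x‖ ^ 2) -
      Ex s p (2 * i) (fun x => ‖c x‖ ^ 2)) / 2 := by
  have hm := mean_eq h p hp1 i
  set m := Ex s p i c with hmdef
  set b := bet s c p with hb
  set q := qb s A c p i with hq
  set q' := qb s A c p (i + 1) with hq'
  -- basic inner products
  have e1 : ⟪b, m⟫ = cs' s A c p i := inner_mean h p hp1 i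
  have e2 : ⟪b, q⟫ = mu s A c p i := rfl
  have sumshift : ∀ j, ⟪qb s A c p j, m⟫ = cs' s A c p (i + j) - cs' s A c p j := by
    intro j
    rw [hm, inner_sum]
    unfold cs'
    rw [add_comm i j, Finset.sum_range_add]
    rw [add_sub_cancel_left]
    refine Finset.sum_congr rfl fun k _ => inner_qb h p j k
  have e3 : ⟪q, m⟫ = cs' s A c p (i + i) - cs' s A c p i := sumshift i
  have e4 : ⟪q', m⟫ = cs' s A c p (i + (i + 1)) - cs' s A c p (i + 1) := sumshift (i + 1)
  have e5 : ⟪q, q⟫ = mu s A c p (i + i) := inner_qb h p i i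
  have e6 : ⟪q', q⟫ = mu s A c p (i + 1 + i) := inner_qb h p (i + 1) i
  -- Q w
  have hQm : Qop s A p m = m + q - b := by
    have h1 : b + Qop s A p m = m + q := by
      rw [hm, map_sum]
      have h2 : ∑ k ∈ Finset.range i, Qop s A p (qb s A c p k) =
          ∑ k ∈ Finset.range i, qb s A c p (k + 1) :=
        Finset.sum_congr rfl fun k _ => (qb_succ p k).symm
      rw [h2, ← Finset.sum_range_succ, Finset.sum_range_succ', qb_zero, add_comm]
    rw [← h1]
    abel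
  have hQq : Qop s A p q = q' := (qb_succ p i).symm
  have hw : wv s A c p i = m + (1 / 2 : ℝ) • q := rfl
  have hQw : Qop s A p (wv s A c p i) = m + q - b + (1 / 2 : ℝ) • q' := by
    rw [hw, map_add, map_smul, hQm, hQq]
  rw [J_eq h p hp1, sq_rec h p hp1, sq_rec h p hp1, hQw, hw]
  have f1 : ⟪b, m + (1 / 2 : ℝ) • q⟫ = ⟪b, m⟫ + 1 / 2 * ⟪b, q⟫ := by
    rw [inner_add_right, real_inner_smul_right]
  have f2 : ‖m + (1 / 2 : ℝ) • q‖ ^ 2 - ⟪m + q - b + (1 / 2 : ℝ) • q', m + (1 / 2 : ℝ) • q⟫ =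
      ⟪b, m⟫ + 1 / 2 * ⟪b, q⟫ - 1 / 2 * (⟪q, m⟫ + 1 / 2 * ⟪q, q⟫) -
        1 / 2 * (⟪q', m⟫ + 1 / 2 * ⟪q', q⟫) := by
    rw [← real_inner_self_eq_norm_sq]
    simp only [inner_add_left, inner_add_right, inner_sub_left, real_inner_smul_left,
      real_inner_smul_right]
    rw [real_inner_comm q m]
    ring
  rw [f1, f2, e1, e2, e3, e4, e5, e6]
  have g1 : cs' s A c p (i + 1) = cs' s A c p i + mu s A c p i := Finset.sum_range_succ _ _
  have g2 : cs' s A c p (i + (i + 1)) = cs' s A c p (i + i) + mu s A c p (i + i) :=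
    Finset.sum_range_succ _ _
  have g3 : cs' s A c p (2 * i + 1) = cs' s A c p (i + i) + mu s A c p (i + i) := by
    rw [← two_mul]; exact Finset.sum_range_succ _ _
  have g4 : cs' s A c p (2 * i) = cs' s A c p (i + i) := by rw [two_mul]
  have g5 := mu_pair h p hp hp1 i
  have g6 : mu s A c p (i + 1 + i) = mu s A c p (2 * i + 1) := by
    congr 1; omega
  have g7 : mu s A c p (i + i) = mu s A c p (2 * i) := by rw [two_mul]
  rw [g3, g4, g1, g2, g6, g7]
  linarith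

/-- the speed -/
noncomputable def spd (s : B → W) (A : W → V →ₗᵢ[ℝ] V) (c : W → V) (p : B → ℝ) : ℝ :=
  ⨅ v, J s A c p v

theorem J_nonneg (hp : ∀ i, 0 ≤ p i) (v : V) : 0 ≤ J s A c p v :=
  Finset.sum_nonneg fun i _ => mul_nonneg (hp i) (sq_nonneg _)

theorem spd_le (hp : ∀ i, 0 ≤ p i) (v : V) : spd s A c p ≤ J s A c p v :=
  ciInf_le ⟨0, by rintro _ ⟨w, rfl⟩; exact J_nonneg p hp w⟩ v

theorem spd_nonneg (hp : ∀ i, 0 ≤ p i) : 0 ≤ spd s A c p :=
  le_ciInf fun v => J_nonneg p hp v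

include h in
theorem lower_even (hp : ∀ i, 0 ≤ p i) (hp1 : ∑ i, p i = 1) (n : ℕ) :
    (2 * n : ℝ) * spd s A c p ≤ Ex s p (2 * n) (fun x => ‖c x‖ ^ 2) := by
  induction n with
  | zero => simp [Ex_zero, h.c_one]
  | succ n ih =>
    have h1 := J_wv h p hp hp1 n
    have h2 := spd_le (s := s) (A := A) (c := c) p hp (wv s A c p n)
    rw [show 2 * (n + 1) = 2 * n + 2 by ring]
    push_cast
    linarith

include h in
theorem lower (hp : ∀ i, 0 ≤ p i) (hp1 : ∑ i, p i = 1) (n : ℕ) :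
    n * spd s A c p - ∑ i, p i * ‖c (s i)‖ ^ 2 ≤ Ex s p n (fun x => ‖c x‖ ^ 2) := by
  have hpos : 0 ≤ ∑ i, p i * ‖c (s i)‖ ^ 2 :=
    Finset.sum_nonneg fun i _ => mul_nonneg (hp i) (sq_nonneg _)
  have hs := spd_nonneg (s := s) (A := A) (c := c) p hp
  rcases Nat.even_or_odd' n with ⟨k, hk | hk⟩
  · have := lower_even h p hp hp1 k
    rw [hk]
    push_cast
    linarith
  · have h1 := lower_even h p hp hp1 (k + 1)
    have h2 := sq_rec h p hp1 (2 * k + 1)
    rw [show 2 * (k + 1) = 2 * k + 1 + 1 by ring, h2] at h1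
    have h3 := cs_nonneg h p hp hp1 (2 * k + 1)
    rw [hk]
    push_cast at h1 ⊢
    linarith

include h in
theorem upper (hp : ∀ i, 0 ≤ p i) (hp1 : ∑ i, p i = 1) (v : V) (δ : ℝ) (hδ : 0 < δ) (n : ℕ) :
    Ex s p n (fun x => ‖c x‖ ^ 2) ≤ (1 + δ) * (n * J s A c p v) +
      (1 + 1 / δ) * (2 * ‖v‖) ^ 2 := by
  have h1 := sq_le (h.twist v) p hp hp1 n
  have h2 : ∀ x, ‖c x‖ ^ 2 ≤ (1 + δ) * ‖c x + A x v - v‖ ^ 2 + (1 + 1 / δ) * (2 * ‖v‖) ^ 2 := by
    intro x
    have h3 : ‖c x‖ ≤ ‖c x + A x v - v‖ + 2 * ‖v‖ := by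
      have h4 : c x = (c x + A x v - v) + (v - A x v) := by abel
      calc ‖c x‖ = ‖(c x + A x v - v) + (v - A x v)‖ := by rw [← h4]
        _ ≤ ‖c x + A x v - v‖ + ‖v - A x v‖ := norm_add_le _ _
        _ ≤ ‖c x + A x v - v‖ + (‖v‖ + ‖A x v‖) := by gcongr; exact norm_sub_le _ _
        _ = ‖c x + A x v - v‖ + 2 * ‖v‖ := by rw [(A x).norm_map]; ring
    have h5 : ∀ a b : ℝ, 0 ≤ a → 0 ≤ b → (a + b) ^ 2 ≤ (1 + δ) * a ^ 2 + (1 + 1 / δ) * b ^ 2 := by
      intro a b _ _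
      have h6 : 0 ≤ δ * (a - b / δ) ^ 2 := by positivity
      have h7 : δ * (a - b / δ) ^ 2 = δ * a ^ 2 - 2 * a * b + b ^ 2 / δ := by
        field_simp
        ring
      have h8 : (1 + δ) * a ^ 2 + (1 + 1 / δ) * b ^ 2 - (a + b) ^ 2 =
          δ * a ^ 2 - 2 * a * b + b ^ 2 / δ := by
        field_simp
        ring
      linarith
    calc ‖c x‖ ^ 2 ≤ (‖c x + A x v - v‖ + 2 * ‖v‖) ^ 2 :=
          pow_le_pow_left₀ (norm_nonneg _) h3 2
      _ ≤ _ := h5 _ _ (norm_nonneg _) (by positivity)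
  have h9 := Ex_mono s p hp n _ _ h2
  have h10 : Ex s p n (fun x => (1 + δ) * ‖c x + A x v - v‖ ^ 2 + (1 + 1 / δ) * (2 * ‖v‖) ^ 2) =
      (1 + δ) * Ex s p n (fun x => ‖c x + A x v - v‖ ^ 2) + (1 + 1 / δ) * (2 * ‖v‖) ^ 2 := by
    have h11 : (fun x => (1 + δ) * ‖c x + A x v - v‖ ^ 2 + (1 + 1 / δ) * (2 * ‖v‖) ^ 2) =
        fun x => (fun x => (LinearMap.lsmul ℝ ℝ (1 + δ)) (‖c x + A x v - v‖ ^ 2)) x +
          (fun _ => (1 + 1 / δ) * (2 * ‖v‖) ^ 2) x := by
      funext x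
      simp
      ring
    rw [h11, Ex_add, Ex_const s p hp1, Ex_lin]
    simp
    ring
  rw [h10] at h9
  refine h9.trans ?_
  have h12 : (1 + δ) * Ex s p n (fun x => ‖c x + A x v - v‖ ^ 2) ≤
      (1 + δ) * (n * J s A c p v) := by
    refine mul_le_mul_of_nonneg_left ?_ (by linarith)
    exact h1
  linarith

end Coc

end Q290.Cox
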