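import Pool.Agent.Helper376.LC.Cox

/-!
# The Hilbert space cocycle of a Coxeter system

`coc x` is the indicator of the set of walls between `1` and `x`, a vector of `ℓ²(W)`, and `act` is
an isometric action of `W` on `ℓ²(W)` with `coc (x * y) = coc x + act x (coc y)` and
`‖coc x‖ ^ 2 = ℓ x`.
-/

set_option autoImplicit false

open Pool.Agent.Helper376.LC

namespace Q290.Cox

/-- real `ℓ²` -/
abbrev H (W : Type*) := lp (fun _ : W => ℝ) 2

section Perm

variable {W : Type*} (e : W ≃ W) (ε : W → ℝ) (hε : ∀ t, |ε t| = 1)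

include hε in
theorem memℓp_perm (f : H W) : Memℓp (fun t => ε t * f (e t) : W → ℝ) 2 := by
  have h1 : Summable fun t => ‖f t‖ ^ (2 : ENNReal).toReal := (lp.memℓp f).summable (by norm_num)
  refine memℓp_gen ?_
  have h2 : (fun t => ‖ε t * f (e t)‖ ^ (2 : ENNReal).toReal) =
      (fun t => ‖f t‖ ^ (2 : ENNReal).toReal) ∘ e := by
    funext t
    simp [norm_mul, hε]
  rw [h2]
  exact (Equiv.summable_iff e).mpr h1

/-- the signed permutation of the coordinates -/
noncomputable def sperm : H W →ₗᵢ[ℝ] H W where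
  toFun f := ⟨fun t => ε t * f (e t), memℓp_perm e ε hε f⟩
  map_add' f g := by
    ext t
    show ε t * (f (e t) + g (e t)) = ε t * f (e t) + ε t * g (e t)
    ring
  map_smul' c f := by
    ext t
    simp
    ring
  norm_map' f := by
    have h : ∀ g : H W, ‖g‖ ^ 2 = ∑' t, ‖g t‖ ^ 2 := by
      intro g
      have := lp.norm_rpow_eq_tsum (p := 2) (by norm_num) g
      simpa using this
    have h2 : ‖(⟨fun t => ε t * f (e t), memℓp_perm e ε hε f⟩ : H W)‖ ^ 2 = ‖f‖ ^ 2 := by
      rw [h, h]
      have h3 : (fun t => ‖(⟨fun t => ε t * f (e t), memℓp_perm e ε hε f⟩ : H W) t‖ ^ 2) =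
          fun t => (fun t => ‖f t‖ ^ 2) (e t) := by
        funext t
        simp [norm_mul, hε]
      rw [h3]
      exact Equiv.tsum_eq e (fun t => ‖f t‖ ^ 2)
    exact (pow_left_inj₀ (norm_nonneg _) (norm_nonneg _) two_ne_zero).mp h2

@[simp] theorem sperm_apply (f : H W) (t : W) : (sperm e ε hε f) t = ε t * f (e t) := rfl

end Perm

variable {B : Type*} {M : CoxeterMatrix B} {W : Type*} [Group W] (cs : CoxeterSystem M W)

open Classical in
/-- the sign -/
noncomputable def sg (x t : W) : ℝ := if t ∈ Ninv cs x then -1 else 1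

theorem abs_sg (x t : W) : |sg cs x t| = 1 := by
  unfold sg
  split_ifs <;> simp

/-- conjugation by `x⁻¹` -/
def conjEquiv (x : W) : W ≃ W where
  toFun t := x⁻¹ * t * x
  invFun t := x * t * x⁻¹
  left_inv t := by group
  right_inv t := by group

/-- the action on `ℓ²` -/
noncomputable def act (x : W) : H W →ₗᵢ[ℝ] H W := sperm (conjEquiv x) (sg cs x) (abs_sg cs x)

theorem act_apply (x : W) (f : H W) (t : W) : (act cs x f) t = sg cs x t * f (x⁻¹ * t * x) := rfl

theorem act_one (f : H W) : act cs 1 f = f := by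
  ext t
  rw [act_apply]
  have : sg cs 1 t = 1 := by
    unfold sg
    rw [if_neg]
    rw [Ninv_one']
    exact Set.notMem_empty t
  rw [this]
  simp

theorem sg_mul (x y t : W) : sg cs (x * y) t = sg cs x t * sg cs y (x⁻¹ * t * x) := by
  unfold sg
  have h := mem_Ninv_mul' cs x y t
  by_cases h1 : t ∈ Ninv cs x <;> by_cases h2 : x⁻¹ * t * x ∈ Ninv cs y
  · rw [if_neg (by rw [h]; tauto), if_pos h1, if_pos h2]; norm_num
  · rw [if_pos (by rw [h]; tauto), if_pos h1, if_neg h2]; norm_num
  · rw [if_pos (by rw [h]; tauto), if_neg h1, if_pos h2]; norm_num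
  · rw [if_neg (by rw [h]; tauto), if_neg h1, if_neg h2]; norm_num

theorem act_mul (x y : W) (f : H W) : act cs (x * y) f = act cs x (act cs y f) := by
  ext t
  rw [act_apply, act_apply, act_apply, sg_mul, mul_assoc]
  congr 3
  group

open Classical in
/-- the finite set of walls between `1` and `x` -/
noncomputable def nset (x : W) : Finset W := (Ninv_eq cs x).choose

theorem nset_coe (x : W) : Ninv cs x = ↑(nset cs x) := (Ninv_eq cs x).choose_spec.1

theorem nset_card (x : W) : (nset cs x).card = cs.length x := (Ninv_eq cs x).choose_spec.2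

open Classical in
/-- the cocycle -/
noncomputable def coc (x : W) : H W := ∑ t ∈ nset cs x, lp.single 2 t (1 : ℝ)

open Classical in
theorem coc_apply (x t : W) : (coc cs x) t = if t ∈ Ninv cs x then 1 else 0 := by
  unfold coc
  rw [lp.coeFn_sum, Finset.sum_apply]
  simp only [lp.single_apply, Pi.single_apply]
  rw [Finset.sum_ite_eq]
  rw [nset_coe]
  simp

theorem coc_mul (x y : W) : coc cs (x * y) = coc cs x + act cs x (coc cs y) := by
  classical
  ext t
  rw [lp.coeFn_add, Pi.add_apply, act_apply, coc_apply, coc_apply, coc_apply]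
  have h := mem_Ninv_mul' cs x y t
  unfold sg
  by_cases h1 : t ∈ Ninv cs x <;> by_cases h2 : x⁻¹ * t * x ∈ Ninv cs y
  · rw [if_neg (by rw [h]; tauto), if_pos h1, if_pos h2, if_pos h1]; norm_num
  · rw [if_pos (by rw [h]; tauto), if_pos h1, if_neg h2, if_pos h1]; norm_num
  · rw [if_pos (by rw [h]; tauto), if_neg h1, if_pos h2, if_neg h1]; norm_num
  · rw [if_neg (by rw [h]; tauto), if_neg h1, if_neg h2, if_neg h1]; norm_num

theorem norm_coc_sq (x : W) : ‖coc cs x‖ ^ 2 = cs.length x := by
  classical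
  have h := lp.norm_rpow_eq_tsum (p := 2) (by norm_num) (coc cs x)
  have h1 : ‖coc cs x‖ ^ 2 = ∑' t, ‖coc cs x t‖ ^ 2 := by simpa using h
  rw [h1, tsum_eq_sum (s := nset cs x)]
  · rw [← nset_card cs x]
    rw [Finset.sum_congr rfl (g := fun _ => (1 : ℝ))]
    · simp
    · intro t ht
      have : t ∈ Ninv cs x := by rw [nset_coe]; exact ht
      rw [coc_apply, if_pos this]
      simp
  · intro t ht
    have : t ∉ Ninv cs x := by rw [nset_coe]; exact ht
    rw [coc_apply, if_neg this]
    simp

end Q290.Cox
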