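import Mathlib

/-!
# The continuous time walk on a Coxeter group: definitions
-/

set_option autoImplicit false

open MeasureTheory ProbabilityTheory

namespace Q290.Cox

/-- The jumps and the holding times of the continuous time walk on a Coxeter group with the
generators `s i`, `i : B`, which jumps from `w` to `w * s i` at rate `r i`: the holding times
`τ 0, τ 1, …` are independent exponential variables with the rate `∑ i, r i`, the labels
`ξ 0, ξ 1, …` of the edges that are crossed are independent with `P (ξ n = i) = r i / ∑ j, r j`,
and the holding times and the labels are independent of each other. -/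
structure IsWalk {Ω : Type*} [MeasurableSpace Ω] (P : Measure Ω) {B : Type*} [Fintype B]
    [MeasurableSpace B] (r : B → ℝ) (τ : ℕ → Ω → ℝ) (ξ : ℕ → Ω → B) : Prop where
  measurable_time : ∀ n, Measurable (τ n)
  measurable_label : ∀ n, Measurable (ξ n)
  law_time : ∀ n, P.map (τ n) = expMeasure (∑ i, r i)
  law_label : ∀ n i, P (ξ n ⁻¹' {i}) = ENNReal.ofReal (r i / ∑ j, r j)
  indep_time : iIndepFun τ P
  indep_label : iIndepFun ξ P
  indep : IndepFun (fun ω n => τ n ω) (fun ω n => ξ n ω) P

/-- The number of jumps up to time `t`, which is the least `n` such that the `(n + 1)`-st jump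
time `τ 0 + ⋯ + τ n` is larger than `t`. -/
noncomputable def numJumps {Ω : Type*} (τ : ℕ → Ω → ℝ) (t : ℝ) (ω : Ω) : ℕ :=
  sInf {n : ℕ | t < ∑ k ∈ Finset.range (n + 1), τ k ω}

/-- The position of the walk at time `t`: the product of the generators that belong to the labels
of the jumps up to time `t`. -/
noncomputable def position {B W : Type*} [Group W] {M : CoxeterMatrix B} (cs : CoxeterSystem M W)
    {Ω : Type*} (τ : ℕ → Ω → ℝ) (ξ : ℕ → Ω → B) (t : ℝ) (ω : Ω) : W :=
  cs.wordProd ((List.range (numJumps τ t ω)).map fun k => ξ k ω)

end Q290.Cox
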