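import Pool.Agent.Q290.Cox.Label
import Pool.Agent.Q290.Cox.Cocycle

/-!
# The escape speed of the walk on a Coxeter group as an infimum
-/

set_option autoImplicit false
set_option linter.unusedSectionVars false

open MeasureTheory ProbabilityTheory Filter Topology

namespace Q290.Cox

section Main

variable {B W : Type*} [Fintype B] [Group W] {M : CoxeterMatrix B} (cs : CoxeterSystem M W)

theorem cocData : CocData cs.simple (act cs) (coc cs) where
  invol i := cs.simple_mul_simple_self i
  one v := act_one cs v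
  mul x y v := act_mul cs x y v
  coc x y := coc_mul cs x y

/-- the escape speed as the infimum of the energies of the twisted cocycles -/
noncomputable def sig (r : B → ℝ) : ℝ := ⨅ v : H W, J cs.simple (act cs) (coc cs) r v

theorem sig_smul (r : B → ℝ) (R : ℝ) (hR : 0 < R) :
    R * spd cs.simple (act cs) (coc cs) (fun i => r i / R) = sig cs r := by
  unfold spd sig
  rw [Real.mul_iInf_of_nonneg hR.le]
  congr 1
  funext v
  unfold J
  rw [Finset.mul_sum]
  refine Finset.sum_congr rfl fun i _ => ?_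
  field_simp

theorem concave_sig : ConcaveOn ℝ {r : B → ℝ | ∀ i, 0 < r i} (sig cs) := by
  refine ⟨?_, ?_⟩
  · intro x hx y hy a b ha hb hab i
    rcases ha.lt_or_eq with h | h
    · have h1 : 0 < a * x i := mul_pos h (hx i)
      have h2 : 0 ≤ b * y i := mul_nonneg hb (hy i).le
      show 0 < a * x i + b * y i
      linarith
    · have hb1 : b = 1 := by linarith
      show 0 < a * x i + b * y i
      rw [← h, hb1]
      simpa using hy i
  · intro x hx y hy a b ha hb hab
    refine le_ciInf fun v => ?_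
    have h1 : sig cs x ≤ J cs.simple (act cs) (coc cs) x v :=
      spd_le (s := cs.simple) (A := act cs) (c := coc cs) x (fun i => (hx i).le) v
    have h2 : sig cs y ≤ J cs.simple (act cs) (coc cs) y v :=
      spd_le (s := cs.simple) (A := act cs) (c := coc cs) y (fun i => (hy i).le) v
    have h3 : J cs.simple (act cs) (coc cs) (a • x + b • y) v =
        a * J cs.simple (act cs) (coc cs) x v + b * J cs.simple (act cs) (coc cs) y v := by
      unfold J
      rw [Finset.mul_sum, Finset.mul_sum, ← Finset.sum_add_distrib]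
      refine Finset.sum_congr rfl fun i _ => ?_
      simp only [Pi.add_apply, Pi.smul_apply, smul_eq_mul]
      ring
    rw [h3, smul_eq_mul, smul_eq_mul]
    exact add_le_add (mul_le_mul_of_nonneg_left h1 ha) (mul_le_mul_of_nonneg_left h2 hb)

end Main

section Walk

variable {B W : Type*} [Fintype B] [Nonempty B] [MeasurableSpace B] [MeasurableSingletonClass B]
  [Group W] {M : CoxeterMatrix B} (cs : CoxeterSystem M W)
  {Ω : Type*} [MeasurableSpace Ω] {P : Measure Ω} [IsProbabilityMeasure P]
  {r : B → ℝ} {τ : ℕ → Ω → ℝ} {ξ : ℕ → Ω → B}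

/-- the expected length after `n` jumps -/
noncomputable def el (p : B → ℝ) (n : ℕ) : ℝ :=
  Ex cs.simple p n (fun x => (cs.length x : ℝ))

theorem sum_pos' (hr : ∀ i, 0 < r i) : 0 < ∑ i, r i :=
  Finset.sum_pos (fun i _ => hr i) Finset.univ_nonempty

theorem length_wd_le (n : ℕ) (y : ℕ → B) : cs.length (wd cs n y) ≤ n := by
  have h := cs.length_wordProd_le ((List.range n).map y)
  rw [List.length_map, List.length_range] at h
  exact h

theorem expect_eq (hr : ∀ i, 0 < r i) (h : IsWalk P r τ ξ) (t : ℝ) :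
    Integrable (fun ω => el cs (fun i => r i / ∑ j, r j) (nj t fun n => τ n ω)) P ∧
    ∫ ω, (cs.length (position cs τ ξ t ω) : ℝ) ∂P =
      ∫ ω, el cs (fun i => r i / ∑ j, r j) (nj t fun n => τ n ω) ∂P := by
  have hR := sum_pos' hr
  set R := ∑ j, r j with hRdef
  set T : Ω → ℕ → ℝ := fun ω n => τ n ω with hT
  set X : Ω → ℕ → B := fun ω n => ξ n ω with hX
  have hTm : Measurable T := measurable_pi_lambda _ h.measurable_time
  have hXm : Measurable X := measurable_pi_lambda _ h.measurable_label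
  have hprod : P.map (fun ω => (T ω, X ω)) = (P.map T).prod (P.map X) :=
    h.indep.map_prod_eq_prod_map_map hTm.aemeasurable hXm.aemeasurable
  have : IsProbabilityMeasure (P.map T) := Measure.isProbabilityMeasure_map hTm.aemeasurable
  have : IsProbabilityMeasure (P.map X) := Measure.isProbabilityMeasure_map hXm.aemeasurable
  set Φ : (ℕ → ℝ) × (ℕ → B) → ℝ := fun q => (cs.length (wd cs (nj t q.1) q.2) : ℝ) with hΦ
  have hΦm : Measurable Φ := by
    have h1 : Φ = (fun q : ℕ × (ℕ → B) => (cs.length (wd cs q.1 q.2) : ℝ)) ∘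
        fun q : (ℕ → ℝ) × (ℕ → B) => (nj t q.1, q.2) := rfl
    rw [h1]
    refine Measurable.comp ?_ (((measurable_nj t).comp measurable_fst).prodMk measurable_snd)
    exact measurable_from_prod_countable_right fun n =>
      measurable_wd cs n (fun x => (cs.length x : ℝ))
  have hTXm : Measurable fun ω => (T ω, X ω) := hTm.prodMk hXm
  have hnj := integrable_nj hR h.measurable_time h.law_time h.indep_time t
  have hint : Integrable (fun ω => Φ (T ω, X ω)) P := by
    refine hnj.mono' (hΦm.comp hTXm).aestronglyMeasurable (Eventually.of_forall fun ω => ?_)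
    rw [Real.norm_of_nonneg (Nat.cast_nonneg _)]
    exact_mod_cast length_wd_le cs _ _
  have hint2 : Integrable Φ ((P.map T).prod (P.map X)) := by
    rw [← hprod]
    exact (integrable_map_measure hΦm.aestronglyMeasurable hTXm.aemeasurable).mpr hint
  have hinner : ∀ x, ∫ y, Φ (x, y) ∂(P.map X) = el cs (fun i => r i / R) (nj t x) := by
    intro x
    have hm : Measurable fun y : ℕ → B => Φ (x, y) := hΦm.comp measurable_prodMk_left
    rw [integral_map hXm.aemeasurable hm.aestronglyMeasurable]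
    exact integral_wd cs (fun i => r i / R) (fun i => div_nonneg (hr i).le hR.le)
      h.measurable_label h.indep_label h.law_label (nj t x) (fun x => (cs.length x : ℝ))
  have helm : Measurable fun x : ℕ → ℝ => el cs (fun i => r i / R) (nj t x) :=
    (measurable_from_nat (f := el cs (fun i => r i / R))).comp (measurable_nj t)
  constructor
  · have h1 := hint2.integral_prod_left
    simp only [hinner] at h1
    exact (integrable_map_measure helm.aestronglyMeasurable hTm.aemeasurable).mp h1
  · have h1 : ∫ ω, (cs.length (position cs τ ξ t ω) : ℝ) ∂P = ∫ ω, Φ (T ω, X ω) ∂P := rfl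
    rw [h1, ← integral_map (f := Φ) hTXm.aemeasurable hΦm.aestronglyMeasurable, hprod,
      integral_prod _ hint2]
    simp only [hinner]
    rw [integral_map hTm.aemeasurable helm.aestronglyMeasurable]

theorem el_eq (p : B → ℝ) (n : ℕ) :
    el cs p n = Ex cs.simple p n (fun x => ‖coc cs x‖ ^ 2) := by
  unfold el
  congr 1
  funext x
  rw [norm_coc_sq]

theorem tendsto_speed (hr : ∀ i, 0 < r i) (h : IsWalk P r τ ξ) :
    Tendsto (fun t : ℝ => (∫ ω, (cs.length (position cs τ ξ t ω) : ℝ) ∂P) / t) atTop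
      (𝓝 (sig cs r)) := by
  have hR := sum_pos' hr
  set R := ∑ j, r j with hRdef
  set p : B → ℝ := fun i => r i / R with hp
  have hp0 : ∀ i, 0 ≤ p i := fun i => div_nonneg (hr i).le hR.le
  have hp1 : ∑ i, p i = 1 := by
    rw [hp, ← Finset.sum_div]
    exact div_self hR.ne'
  have hc1 : ∑ i, p i * ‖coc cs (cs.simple i)‖ ^ 2 = 1 := by
    simp only [norm_coc_sq, cs.length_simple]
    simpa using hp1
  set I := spd cs.simple (act cs) (coc cs) p with hI
  have hsig : sig cs r = R * I := (sig_smul cs r R hR).symm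
  have hlow : ∀ n : ℕ, n * I - 1 ≤ el cs p n := by
    intro n
    have := lower (cocData cs) p hp0 hp1 n
    rw [hc1] at this
    rw [el_eq]
    exact this
  have hup : ∀ ε : ℝ, 0 < ε → ∃ C : ℝ, ∀ n : ℕ, el cs p n ≤ n * (I + ε) + C := by
    intro ε hε
    obtain ⟨v, hv⟩ : ∃ v, J cs.simple (act cs) (coc cs) p v < I + ε / 2 := by
      have : I < I + ε / 2 := by linarith
      rw [hI] at this
      exact exists_lt_of_ciInf_lt this
    have hJ := J_nonneg (s := cs.simple) (A := act cs) (c := coc cs) p hp0 v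
    set j := J cs.simple (act cs) (coc cs) p v with hj
    set δ : ℝ := ε / (2 * (j + 1)) with hδ
    have hδ0 : 0 < δ := by positivity
    refine ⟨(1 + 1 / δ) * (2 * ‖v‖) ^ 2, fun n => ?_⟩
    have h1 := upper (cocData cs) p hp0 hp1 v δ hδ0 n
    rw [el_eq]
    refine h1.trans ?_
    have h2 : (1 + δ) * j ≤ I + ε := by
      have h3 : δ * j ≤ ε / 2 := by
        rw [hδ, div_mul_eq_mul_div, div_le_iff₀ (by positivity)]
        nlinarith
      linarith
    have h3 : (1 + δ) * ((n : ℝ) * j) ≤ n * (I + ε) := by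
      have : (n : ℝ) * ((1 + δ) * j) ≤ n * (I + ε) :=
        mul_le_mul_of_nonneg_left h2 (Nat.cast_nonneg n)
      linarith
    linarith
  have hE : ∀ t : ℝ, 0 ≤ t → R * t * I - 1 ≤
      ∫ ω, (cs.length (position cs τ ξ t ω) : ℝ) ∂P := by
    intro t ht
    obtain ⟨h1, h2⟩ := expect_eq cs hr h t
    have hnj := integrable_nj hR h.measurable_time h.law_time h.indep_time t
    have hnj2 := integral_nj hR h.measurable_time h.law_time h.indep_time t ht
    rw [h2]
    have h3 : ∫ ω, ((nj t (fun n => τ n ω) : ℝ) * I - 1) ∂P = R * t * I - 1 := by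
      rw [integral_sub (hnj.mul_const I) (integrable_const 1), integral_mul_const, hnj2]
      simp
    rw [← h3]
    exact integral_mono ((hnj.mul_const I).sub (integrable_const 1)) h1 fun ω => hlow _
  have hE2 : ∀ ε : ℝ, 0 < ε → ∃ C : ℝ, ∀ t : ℝ, 0 ≤ t →
      ∫ ω, (cs.length (position cs τ ξ t ω) : ℝ) ∂P ≤ R * t * (I + ε) + C := by
    intro ε hε
    obtain ⟨C, hC⟩ := hup ε hε
    refine ⟨C, fun t ht => ?_⟩
    obtain ⟨h1, h2⟩ := expect_eq cs hr h t
    have hnj := integrable_nj hR h.measurable_time h.law_time h.indep_time t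
    have hnj2 := integral_nj hR h.measurable_time h.law_time h.indep_time t ht
    rw [h2]
    have h3 : ∫ ω, ((nj t (fun n => τ n ω) : ℝ) * (I + ε) + C) ∂P = R * t * (I + ε) + C := by
      rw [integral_add (hnj.mul_const _) (integrable_const C), integral_mul_const, hnj2]
      simp
    rw [← h3]
    exact integral_mono h1 ((hnj.mul_const _).add (integrable_const C)) fun ω => hC _
  rw [hsig, Metric.tendsto_atTop]
  intro ε hε
  obtain ⟨C, hC⟩ := hE2 (ε / (2 * R)) (by positivity)
  refine ⟨max 1 (2 * (|C| + 1) / ε + 1), fun t ht => ?_⟩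
  have ht1 : 1 ≤ t := (le_max_left _ _).trans ht
  have ht2 : 2 * (|C| + 1) / ε + 1 ≤ t := (le_max_right _ _).trans ht
  have ht0 : 0 < t := by linarith
  have ht3 : |C| + 1 < ε / 2 * t := by
    have h4 : 2 * (|C| + 1) / ε < t := by linarith
    rw [div_lt_iff₀ hε] at h4
    linarith
  have hlo := hE t ht0.le
  have hhi := hC t ht0.le
  have h5 : R * t * (I + ε / (2 * R)) = R * t * I + ε / 2 * t := by
    field_simp
  rw [h5] at hhi
  rw [Real.dist_eq, abs_lt]
  have hCabs := abs_nonneg C
  have hC1 := le_abs_self C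
  constructor
  · have h6 : R * I - ε < (∫ ω, (cs.length (position cs τ ξ t ω) : ℝ) ∂P) / t := by
      rw [lt_div_iff₀ ht0]
      nlinarith
    linarith
  · have h6 : (∫ ω, (cs.length (position cs τ ξ t ω) : ℝ) ∂P) / t < R * I + ε := by
      rw [div_lt_iff₀ ht0]
      nlinarith
    linarith

theorem iIndepFun_prod_left {Ω₁ Ω₂ α : Type*} [MeasurableSpace Ω₁] [MeasurableSpace Ω₂]
    [MeasurableSpace α] {P₁ : Measure Ω₁} {P₂ : Measure Ω₂} [IsProbabilityMeasure P₁]
    [IsProbabilityMeasure P₂] {f : ℕ → Ω₁ → α} (hf : iIndepFun f P₁)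
    (hm : ∀ n, Measurable (f n)) : iIndepFun (fun n (ω : Ω₁ × Ω₂) => f n ω.1) (P₁.prod P₂) := by
  rw [iIndepFun_iff_measure_inter_preimage_eq_mul]
  intro S sets hsets
  have hmp : MeasurePreserving (Prod.fst : Ω₁ × Ω₂ → Ω₁) (P₁.prod P₂) P₁ := measurePreserving_fst
  have h1 : (⋂ i ∈ S, (fun ω : Ω₁ × Ω₂ => f i ω.1) ⁻¹' sets i) =
      Prod.fst ⁻¹' (⋂ i ∈ S, f i ⁻¹' sets i) := by
    ext ω
    simp
  have h2 : MeasurableSet (⋂ i ∈ S, f i ⁻¹' sets i) :=
    Finset.measurableSet_biInter _ fun i hi => hm i (hsets i hi)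
  rw [h1, hmp.measure_preimage h2.nullMeasurableSet, hf.measure_inter_preimage_eq_mul S hsets]
  refine Finset.prod_congr rfl fun i hi => ?_
  have h3 : (fun ω : Ω₁ × Ω₂ => f i ω.1) ⁻¹' sets i = Prod.fst ⁻¹' (f i ⁻¹' sets i) := rfl
  rw [h3, hmp.measure_preimage (hm i (hsets i hi)).nullMeasurableSet]

theorem iIndepFun_prod_right {Ω₁ Ω₂ α : Type*} [MeasurableSpace Ω₁] [MeasurableSpace Ω₂]
    [MeasurableSpace α] {P₁ : Measure Ω₁} {P₂ : Measure Ω₂} [IsProbabilityMeasure P₁]
    [IsProbabilityMeasure P₂] {f : ℕ → Ω₂ → α} (hf : iIndepFun f P₂)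
    (hm : ∀ n, Measurable (f n)) : iIndepFun (fun n (ω : Ω₁ × Ω₂) => f n ω.2) (P₁.prod P₂) := by
  rw [iIndepFun_iff_measure_inter_preimage_eq_mul]
  intro S sets hsets
  have hmp : MeasurePreserving (Prod.snd : Ω₁ × Ω₂ → Ω₂) (P₁.prod P₂) P₂ := measurePreserving_snd
  have h1 : (⋂ i ∈ S, (fun ω : Ω₁ × Ω₂ => f i ω.2) ⁻¹' sets i) =
      Prod.snd ⁻¹' (⋂ i ∈ S, f i ⁻¹' sets i) := by
    ext ω
    simp
  have h2 : MeasurableSet (⋂ i ∈ S, f i ⁻¹' sets i) :=
    Finset.measurableSet_biInter _ fun i hi => hm i (hsets i hi)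
  rw [h1, hmp.measure_preimage h2.nullMeasurableSet, hf.measure_inter_preimage_eq_mul S hsets]
  refine Finset.prod_congr rfl fun i hi => ?_
  have h3 : (fun ω : Ω₁ × Ω₂ => f i ω.2) ⁻¹' sets i = Prod.snd ⁻¹' (f i ⁻¹' sets i) := rfl
  rw [h3, hmp.measure_preimage (hm i (hsets i hi)).nullMeasurableSet]

theorem exists_walk (r : B → ℝ) (hr : ∀ i, 0 < r i) :
    ∃ (P : Measure ((ℕ → ℝ) × (ℕ → B))) (τ : ℕ → (ℕ → ℝ) × (ℕ → B) → ℝ)
      (ξ : ℕ → (ℕ → ℝ) × (ℕ → B) → B), IsProbabilityMeasure P ∧ IsWalk P r τ ξ := by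
  have hR := sum_pos' hr
  have : IsProbabilityMeasure (expMeasure (∑ i, r i)) := isProbabilityMeasure_expMeasure hR
  let ν : Measure B := ∑ i, ENNReal.ofReal (r i / ∑ j, r j) • Measure.dirac i
  have hν : ∀ i, ν {i} = ENNReal.ofReal (r i / ∑ j, r j) := by
    classical
    intro i
    simp only [ν, Measure.coe_finsetSum, Finset.sum_apply, Measure.smul_apply, smul_eq_mul]
    rw [Finset.sum_eq_single i]
    · simp
    · intro j _ hj
      rw [Measure.dirac_apply' _ (measurableSet_singleton i),
        Set.indicator_of_notMem (by simpa using hj), mul_zero]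
    · intro h
      exact absurd (Finset.mem_univ i) h
  have hνp : IsProbabilityMeasure ν := by
    refine ⟨?_⟩
    simp only [ν, Measure.coe_finsetSum, Finset.sum_apply, Measure.smul_apply, smul_eq_mul,
      measure_univ, mul_one]
    rw [← ENNReal.ofReal_sum_of_nonneg fun i _ => div_nonneg (hr i).le hR.le, ← Finset.sum_div,
      div_self hR.ne']
    simp
  let P₁ : Measure (ℕ → ℝ) := Measure.infinitePi fun _ : ℕ => expMeasure (∑ i, r i)
  let P₂ : Measure (ℕ → B) := Measure.infinitePi fun _ : ℕ => ν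
  have hi1 : iIndepFun (fun (n : ℕ) (x : ℕ → ℝ) => x n) P₁ := by
    have := iIndepFun_infinitePi (P := fun _ : ℕ => expMeasure (∑ i, r i))
      (X := fun _ x => x) fun _ => measurable_id
    exact this
  have hi2 : iIndepFun (fun (n : ℕ) (x : ℕ → B) => x n) P₂ := by
    have := iIndepFun_infinitePi (P := fun _ : ℕ => ν) (X := fun _ x => x) fun _ => measurable_id
    exact this
  refine ⟨P₁.prod P₂, fun n ω => ω.1 n, fun n ω => ω.2 n, inferInstance, ?_⟩
  constructor
  · intro n
    exact (measurable_pi_apply n).comp measurable_fst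
  · intro n
    exact (measurable_pi_apply n).comp measurable_snd
  · intro n
    have h1 : MeasurePreserving (fun ω : (ℕ → ℝ) × (ℕ → B) => ω.1) (P₁.prod P₂) P₁ :=
      measurePreserving_fst
    have h2 := measurePreserving_eval_infinitePi (fun _ : ℕ => expMeasure (∑ i, r i)) n
    exact (h2.comp h1).map_eq
  · intro n i
    have h1 : MeasurePreserving (fun ω : (ℕ → ℝ) × (ℕ → B) => ω.2) (P₁.prod P₂) P₂ :=
      measurePreserving_snd
    have h2 := measurePreserving_eval_infinitePi (fun _ : ℕ => ν) n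
    have h3 := (h2.comp h1).measure_preimage (measurableSet_singleton i).nullMeasurableSet
    rw [hν] at h3
    exact h3
  · exact iIndepFun_prod_left hi1 fun n => measurable_pi_apply n
  · exact iIndepFun_prod_right hi2 fun n => measurable_pi_apply n
  · exact indepFun_prod (X := fun x : ℕ → ℝ => x) (Y := fun x : ℕ → B => x) measurable_id
      measurable_id

end Walk

end Q290.Cox
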