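import Pool.Agent.Q290.Cox.Time
import Pool.Agent.Q290.Cox.Abs

/-!
# Expectations over the labels and over the number of jumps
-/

set_option autoImplicit false
set_option linter.unusedSectionVars false

open MeasureTheory ProbabilityTheory

namespace Q290.Cox

variable {B W : Type*} [Fintype B] [Group W] {M : CoxeterMatrix B} (cs : CoxeterSystem M W)

/-- the product of the generators of the first `n` labels -/
noncomputable def wd (n : ℕ) (y : ℕ → B) : W := cs.wordProd ((List.range n).map y)

theorem wd_eq_ofFn (n : ℕ) (y : ℕ → B) :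
    wd cs n y = cs.wordProd (List.ofFn fun i : Fin n => y i) := by
  unfold wd
  congr 1
  refine List.ext_getElem (by simp) fun k h1 h2 => ?_
  simp

theorem Ex_eq_sum (p : B → ℝ) (n : ℕ) (F : W → ℝ) :
    Ex cs.simple p n F = ∑ f : Fin n → B, (∏ i, p (f i)) * F (cs.wordProd (List.ofFn f)) := by
  induction n generalizing F with
  | zero => rw [Ex_zero]; simp
  | succ n ih =>
    rw [Ex_succ]
    have h1 : ∀ i, Ex cs.simple p n (fun x => F (cs.simple i * x)) =
        ∑ f : Fin n → B, (∏ j, p (f j)) * F (cs.simple i * cs.wordProd (List.ofFn f)) :=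
      fun i => ih _
    simp only [h1]
    rw [← (Fin.consEquiv fun _ : Fin (n + 1) => B).sum_comp, Fintype.sum_prod_type]
    refine Finset.sum_congr rfl fun i _ => ?_
    rw [smul_eq_mul, Finset.mul_sum]
    refine Finset.sum_congr rfl fun f _ => ?_
    have hc : (Fin.consEquiv fun _ : Fin (n + 1) => B) (i, f) = Fin.cons i f := rfl
    rw [hc, Fin.prod_univ_succ, List.ofFn_succ]
    simp only [Fin.cons_zero, Fin.cons_succ]
    rw [cs.wordProd_cons]
    ring

variable {Ω : Type*} [MeasurableSpace Ω] {P : Measure Ω} [IsProbabilityMeasure P]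

section Label

variable [MeasurableSpace B] [MeasurableSingletonClass B] {ξ : ℕ → Ω → B}

theorem integral_wd (p : B → ℝ) (hp : ∀ i, 0 ≤ p i) (hm : ∀ n, Measurable (ξ n))
    (hi : iIndepFun ξ P) (hl : ∀ n i, P (ξ n ⁻¹' {i}) = ENNReal.ofReal (p i)) (n : ℕ)
    (F : W → ℝ) : ∫ ω, F (wd cs n fun k => ξ k ω) ∂P = Ex cs.simple p n F := by
  have hX : Measurable fun ω (i : Fin n) => ξ i ω := measurable_pi_lambda _ fun i => hm i
  have h1 : (fun ω => F (wd cs n fun k => ξ k ω)) =
      fun ω => (fun f : Fin n → B => F (cs.wordProd (List.ofFn f))) (fun i : Fin n => ξ i ω) := by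
    funext ω
    rw [wd_eq_ofFn]
  rw [h1, ← integral_map (f := fun f : Fin n → B => F (cs.wordProd (List.ofFn f)))
    hX.aemeasurable (measurable_of_finite _).aestronglyMeasurable]
  have : IsProbabilityMeasure (P.map fun ω (i : Fin n) => ξ i ω) :=
    Measure.isProbabilityMeasure_map hX.aemeasurable
  rw [integral_fintype Integrable.of_finite, Ex_eq_sum]
  refine Finset.sum_congr rfl fun f _ => ?_
  rw [smul_eq_mul]
  congr 1
  rw [Measure.real, Measure.map_apply hX (measurableSet_singleton f)]
  have h2 : (fun ω (i : Fin n) => ξ i ω) ⁻¹' {f} =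
      ⋂ k ∈ Finset.range n, ξ k ⁻¹' (if h : k < n then {f ⟨k, h⟩} else Set.univ) := by
    ext ω
    simp only [Set.mem_preimage, Set.mem_singleton_iff, Set.mem_iInter, Finset.mem_range]
    constructor
    · intro h k hk
      rw [dif_pos hk, Set.mem_singleton_iff, ← h]
    · intro h
      funext i
      have := h i i.2
      rw [dif_pos i.2] at this
      exact this
  rw [h2, hi.measure_inter_preimage_eq_mul]
  · rw [← Fin.prod_univ_eq_prod_range
      (fun k => P (ξ k ⁻¹' (if h : k < n then {f ⟨k, h⟩} else Set.univ))), ENNReal.toReal_prod]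
    refine Finset.prod_congr rfl fun i _ => ?_
    rw [dif_pos i.2, hl, ENNReal.toReal_ofReal (hp _)]
  · intro k hk
    rw [Finset.mem_range] at hk
    rw [dif_pos hk]
    exact measurableSet_singleton _

theorem measurable_wd (n : ℕ) (F : W → ℝ) : Measurable fun y : ℕ → B => F (wd cs n y) := by
  have h1 : (fun y : ℕ → B => F (wd cs n y)) =
      (fun f : Fin n → B => F (cs.wordProd (List.ofFn f))) ∘ fun y (i : Fin n) => y i := by
    funext y
    rw [wd_eq_ofFn]
    rfl
  rw [h1]
  exact (measurable_of_finite _).comp (measurable_pi_lambda _ fun i => measurable_pi_apply _)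

end Label

section Jumps

/-- the number of jumps as a function of the sequence of the holding times -/
noncomputable def nj (t : ℝ) (x : ℕ → ℝ) : ℕ :=
  sInf {n : ℕ | t < ∑ k ∈ Finset.range (n + 1), x k}

theorem numJumps_eq (τ : ℕ → Ω → ℝ) (t : ℝ) (ω : Ω) :
    numJumps τ t ω = nj t (fun n => τ n ω) := rfl

theorem measurableSet_sum (t : ℝ) (n : ℕ) :
    MeasurableSet {x : ℕ → ℝ | t < ∑ k ∈ Finset.range (n + 1), x k} :=
  measurableSet_lt measurable_const (Finset.measurable_sum _ fun k _ => measurable_pi_apply k)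

theorem measurable_nj (t : ℝ) : Measurable (nj t) := by
  refine measurable_to_countable' fun n => ?_
  have h1 : nj t ⁻¹' {n} = ({x : ℕ → ℝ | t < ∑ k ∈ Finset.range (n + 1), x k} ∩
      ⋂ m ∈ Finset.range n, {x : ℕ → ℝ | t < ∑ k ∈ Finset.range (m + 1), x k}ᶜ) ∪
      (if n = 0 then ⋂ m, {x : ℕ → ℝ | t < ∑ k ∈ Finset.range (m + 1), x k}ᶜ else ∅) := by
    ext x
    simp only [Set.mem_preimage, Set.mem_singleton_iff, Set.mem_union, Set.mem_inter_iff,
      Set.mem_iInter, Finset.mem_range, Set.mem_compl_iff]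
    unfold nj
    by_cases hne : {n : ℕ | t < ∑ k ∈ Finset.range (n + 1), x k}.Nonempty
    · constructor
      · intro h
        left
        refine ⟨?_, fun m hm => ?_⟩
        · rw [← h]
          exact Nat.sInf_mem hne
        · rw [← h] at hm
          exact Nat.notMem_of_lt_sInf hm
      · rintro (⟨h, h'⟩ | h)
        · refine le_antisymm (Nat.sInf_le h) ?_
          by_contra hc
          push Not at hc
          exact h' _ hc (Nat.sInf_mem hne)
        · exfalso
          by_cases hn : n = 0
          · rw [if_pos hn] at h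
            obtain ⟨m, hm⟩ := hne
            exact (Set.mem_iInter.mp h m) hm
          · rw [if_neg hn] at h
            exact h
    · rw [Set.not_nonempty_iff_eq_empty] at hne
      rw [hne, Nat.sInf_empty]
      have hno : ∀ m, ¬ t < ∑ k ∈ Finset.range (m + 1), x k := by
        intro m hm
        have : m ∈ {n : ℕ | t < ∑ k ∈ Finset.range (n + 1), x k} := hm
        rw [hne] at this
        exact this
      constructor
      · intro h
        right
        rw [if_pos h.symm]
        exact Set.mem_iInter.mpr fun m => hno m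
      · rintro (⟨h, _⟩ | h)
        · exact absurd h (hno n)
        · by_contra hn
          rw [if_neg (Ne.symm hn)] at h
          exact h
  rw [h1]
  refine MeasurableSet.union (MeasurableSet.inter (measurableSet_sum t n) ?_) ?_
  · exact Finset.measurableSet_biInter _ fun m _ => (measurableSet_sum t m).compl
  · split_ifs
    · exact MeasurableSet.iInter fun m => (measurableSet_sum t m).compl
    · exact MeasurableSet.empty

theorem exp_nonneg (R : ℝ) : ∀ᵐ x ∂(expMeasure R), 0 ≤ x := by
  rw [expMeasure_eq, ae_withDensity_iff (measurable_gd R 0)]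
  refine Filter.Eventually.of_forall fun x hx => ?_
  by_contra h
  apply hx
  unfold gd
  rw [if_neg h]
  simp

variable {τ : ℕ → Ω → ℝ} {R : ℝ}

theorem lt_nj_iff (hR : 0 < R) (hm : ∀ n, Measurable (τ n))
    (hl : ∀ n, P.map (τ n) = expMeasure R) (hi : iIndepFun τ P) (t : ℝ) :
    ∀ᵐ ω ∂P, ∀ n, n < nj t (fun n => τ n ω) ↔ ∑ k ∈ Finset.range (n + 1), τ k ω ≤ t := by
  have h1 : ∀ᵐ ω ∂P, ∀ n, 0 ≤ τ n ω := by
    rw [ae_all_iff]
    intro n
    have := exp_nonneg R
    rw [← hl n] at this
    exact ae_of_ae_map (hm n).aemeasurable this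
  have h2 := ae_eventually_notMem (μ := P)
    (s := fun n => {ω | ∑ k ∈ Finset.range (n + 1), τ k ω ≤ t})
    (by rw [tsum_prob hR hm hl hi]; exact ENNReal.ofReal_ne_top)
  filter_upwards [h1, h2] with ω e1 e2 n
  have hne : {n : ℕ | t < ∑ k ∈ Finset.range (n + 1), τ k ω}.Nonempty := by
    obtain ⟨m, hm⟩ := e2.exists
    exact ⟨m, lt_of_not_ge hm⟩
  constructor
  · intro h
    exact not_lt.mp (Nat.notMem_of_lt_sInf h)
  · intro h
    by_contra hc
    push Not at hc
    have h3 : t < ∑ k ∈ Finset.range (nj t (fun n => τ n ω) + 1), τ k ω := Nat.sInf_mem hne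
    have h4 : ∑ k ∈ Finset.range (nj t (fun n => τ n ω) + 1), τ k ω ≤
        ∑ k ∈ Finset.range (n + 1), τ k ω := by
      refine Finset.sum_le_sum_of_subset_of_nonneg ?_ fun k _ _ => e1 k
      exact Finset.range_mono (by omega)
    linarith

theorem lintegral_nj (hR : 0 < R) (hm : ∀ n, Measurable (τ n))
    (hl : ∀ n, P.map (τ n) = expMeasure R) (hi : iIndepFun τ P) (t : ℝ) :
    ∫⁻ ω, (nj t (fun n => τ n ω) : ENNReal) ∂P = ENNReal.ofReal (R * t) := by
  have hmeas : Measurable fun ω => nj t (fun n => τ n ω) :=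
    (measurable_nj t).comp (measurable_pi_lambda _ hm)
  have h1 : ∀ N : ℕ, (N : ENNReal) = ∑' n : ℕ, if n < N then 1 else 0 := by
    intro N
    rw [tsum_eq_sum (s := Finset.range N)]
    · rw [Finset.sum_congr rfl (g := fun _ => (1 : ENNReal))]
      · simp
      · intro n hn
        rw [if_pos (Finset.mem_range.mp hn)]
    · intro n hn
      rw [if_neg]
      rwa [Finset.mem_range] at hn
  have h2 : ∀ n : ℕ, MeasurableSet {ω | n < nj t (fun n => τ n ω)} := fun n =>
    hmeas (measurableSet_Ioi (a := n))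
  calc ∫⁻ ω, (nj t (fun n => τ n ω) : ENNReal) ∂P
      = ∫⁻ ω, ∑' n : ℕ, (if n < nj t (fun n => τ n ω) then 1 else 0) ∂P := by
        refine lintegral_congr fun ω => h1 _
    _ = ∑' n : ℕ, ∫⁻ ω, (if n < nj t (fun n => τ n ω) then 1 else 0) ∂P := by
        rw [lintegral_tsum]
        intro n
        exact (Measurable.ite (h2 n) measurable_const measurable_const).aemeasurable
    _ = ∑' n : ℕ, P {ω | ∑ k ∈ Finset.range (n + 1), τ k ω ≤ t} := by
        refine tsum_congr fun n => ?_
        have h3 : (fun ω => if n < nj t (fun n => τ n ω) then (1 : ENNReal) else 0) =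
            {ω | n < nj t (fun n => τ n ω)}.indicator 1 := by
          funext ω
          by_cases h : n < nj t (fun n => τ n ω) <;> simp [h]
        rw [h3, lintegral_indicator_one (h2 n)]
        refine measure_congr ?_
        filter_upwards [lt_nj_iff hR hm hl hi t] with ω hω
        exact propext (hω n)
    _ = ENNReal.ofReal (R * t) := tsum_prob hR hm hl hi t

theorem integrable_nj (hR : 0 < R) (hm : ∀ n, Measurable (τ n))
    (hl : ∀ n, P.map (τ n) = expMeasure R) (hi : iIndepFun τ P) (t : ℝ) :
    Integrable (fun ω => (nj t (fun n => τ n ω) : ℝ)) P := by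
  have hmeas : Measurable fun ω => nj t (fun n => τ n ω) :=
    (measurable_nj t).comp (measurable_pi_lambda _ hm)
  refine ⟨(measurable_from_nat.comp hmeas).aestronglyMeasurable, ?_⟩
  have h := lintegral_nj hR hm hl hi t
  unfold HasFiniteIntegral
  have h2 : ∀ ω, ‖(nj t (fun n => τ n ω) : ℝ)‖ₑ = (nj t (fun n => τ n ω) : ENNReal) := by
    intro ω
    rw [Real.enorm_of_nonneg (Nat.cast_nonneg _)]
    simp
  simp only [h2, h]
  exact ENNReal.ofReal_lt_top

theorem integral_nj (hR : 0 < R) (hm : ∀ n, Measurable (τ n))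
    (hl : ∀ n, P.map (τ n) = expMeasure R) (hi : iIndepFun τ P) (t : ℝ) (ht : 0 ≤ t) :
    ∫ ω, (nj t (fun n => τ n ω) : ℝ) ∂P = R * t := by
  have hmeas : Measurable fun ω => nj t (fun n => τ n ω) :=
    (measurable_nj t).comp (measurable_pi_lambda _ hm)
  rw [integral_eq_lintegral_of_nonneg_ae (Filter.Eventually.of_forall fun ω => Nat.cast_nonneg _)
    (measurable_from_nat.comp hmeas).aestronglyMeasurable]
  simp only [ENNReal.ofReal_natCast]
  rw [lintegral_nj hR hm hl hi t, ENNReal.toReal_ofReal (by positivity)]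

end Jumps

end Q290.Cox
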