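import Pool.Agent.Q290.Cox.Defs

/-!
# The expected number of jumps
-/

set_option autoImplicit false

open MeasureTheory ProbabilityTheory

namespace Q290.Cox

/-- the density of the `(n + 1)`-st jump time -/
noncomputable def gd (R : ℝ) (n : ℕ) (x : ℝ) : ENNReal :=
  ENNReal.ofReal (if 0 ≤ x then R ^ (n + 1) * x ^ n * Real.exp (-(R * x)) / n.factorial else 0)

theorem measurable_gd (R : ℝ) (n : ℕ) : Measurable (gd R n) := by
  unfold gd
  refine ENNReal.measurable_ofReal.comp ?_
  exact Measurable.ite measurableSet_Ici (by fun_prop) measurable_const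

theorem expMeasure_eq (R : ℝ) : expMeasure R = volume.withDensity (gd R 0) := by
  unfold expMeasure gammaMeasure
  congr 1
  funext x
  have h := exponentialPDF_eq R x
  unfold exponentialPDF exponentialPDFReal at h
  unfold gammaPDF
  rw [h]
  unfold gd
  simp

theorem lconv_gd (R : ℝ) (hR : 0 < R) (n : ℕ) (x : ℝ) :
    (lconvolution (gd R n) (gd R 0) volume) x = gd R (n + 1) x := by
  rw [lconvolution_def]
  by_cases hx : 0 ≤ x
  · have h1 : ∀ y, gd R n y * gd R 0 (-y + x) = (Set.Icc 0 x).indicator
        (fun y => ENNReal.ofReal (R ^ (n + 1 + 1) * Real.exp (-(R * x)) / n.factorial * y ^ n)) y := by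
      intro y
      by_cases hy : y ∈ Set.Icc 0 x
      · rw [Set.indicator_of_mem hy]
        unfold gd
        rw [if_pos hy.1, if_pos (by linarith [hy.2]), ← ENNReal.ofReal_mul
          (by have := hy.1; positivity)]
        congr 1
        have h2 : Real.exp (-(R * x)) = Real.exp (-(R * y)) * Real.exp (-(R * (-y + x))) := by
          rw [← Real.exp_add]
          congr 1
          ring
        rw [h2]
        simp
        ring
      · rw [Set.indicator_of_notMem hy]
        unfold gd
        rw [Set.mem_Icc, not_and_or] at hy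
        rcases hy with hy | hy
        · rw [if_neg hy]; simp
        · rw [if_neg (by linarith : ¬ 0 ≤ -y + x)]; simp
    simp only [h1]
    rw [lintegral_indicator measurableSet_Icc, ← ofReal_integral_eq_lintegral_ofReal]
    · rw [integral_const_mul, integral_Icc_eq_integral_Ioc, ← intervalIntegral.integral_of_le hx,
        integral_pow]
      unfold gd
      rw [if_pos hx, Nat.factorial_succ]
      congr 1
      have h3 : ((n : ℝ) + 1) ≠ 0 := by positivity
      have h4 : (n.factorial : ℝ) ≠ 0 := by positivity
      push_cast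
      field_simp
      simp
    · refine ContinuousOn.integrableOn_compact isCompact_Icc ?_
      fun_prop
    · refine (ae_restrict_iff' measurableSet_Icc).mpr (Filter.Eventually.of_forall fun y hy => ?_)
      have := hy.1
      positivity
  · have h1 : ∀ y, gd R n y * gd R 0 (-y + x) = 0 := by
      intro y
      unfold gd
      by_cases hy : 0 ≤ y
      · rw [if_neg (by linarith : ¬ 0 ≤ -y + x)]; simp
      · rw [if_neg hy]; simp
    simp only [h1, lintegral_zero]
    unfold gd
    rw [if_neg hx]
    simp

variable {Ω : Type*} [MeasurableSpace Ω] {P : Measure Ω} [IsProbabilityMeasure P]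
  {τ : ℕ → Ω → ℝ} {R : ℝ}

theorem law_sum (hR : 0 < R) (hm : ∀ n, Measurable (τ n)) (hl : ∀ n, P.map (τ n) = expMeasure R)
    (hi : iIndepFun τ P) (n : ℕ) :
    P.map (fun ω => ∑ k ∈ Finset.range (n + 1), τ k ω) = volume.withDensity (gd R n) := by
  induction n with
  | zero =>
    simp only [zero_add, Finset.range_one, Finset.sum_singleton]
    rw [hl, expMeasure_eq]
  | succ n ih =>
    have hms : Measurable fun ω => ∑ k ∈ Finset.range (n + 1), τ k ω :=
      Finset.measurable_sum _ fun k _ => hm k
    have h1 : (fun ω => ∑ k ∈ Finset.range (n + 1 + 1), τ k ω) =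
        (fun ω => ∑ k ∈ Finset.range (n + 1), τ k ω) + τ (n + 1) := by
      funext ω
      rw [Finset.sum_range_succ]
      rfl
    have h2 : IndepFun (fun ω => ∑ k ∈ Finset.range (n + 1), τ k ω) (τ (n + 1)) P := by
      have h3 := hi.indepFun_finset (Finset.range (n + 1)) {n + 1}
        (by simp) hm
      have h4 : (fun ω => ∑ k ∈ Finset.range (n + 1), τ k ω) =
          (fun f : Finset.range (n + 1) → ℝ => ∑ k, f k) ∘
            fun ω (i : Finset.range (n + 1)) => τ i ω := by
        funext ω
        simp only [Function.comp]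
        rw [← Finset.sum_coe_sort (Finset.range (n + 1)) (fun k => τ k ω)]
      have h5 : τ (n + 1) = (fun f : ({n + 1} : Finset ℕ) → ℝ => f ⟨n + 1, by simp⟩) ∘
          fun ω (i : ({n + 1} : Finset ℕ)) => τ i ω := rfl
      rw [h4, h5]
      exact h3.comp (by fun_prop) (by fun_prop)
    rw [h1, h2.map_add_eq_map_conv_map hms (hm _), ih, hl, expMeasure_eq,
      conv_withDensity_eq_lconvolution (measurable_gd R n) (measurable_gd R 0)]
    congr 1
    funext x
    exact lconv_gd R hR n x

theorem tsum_gd (hR : 0 < R) (x : ℝ) :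
    ∑' n, gd R n x = if 0 ≤ x then ENNReal.ofReal R else 0 := by
  unfold gd
  by_cases hx : 0 ≤ x
  · simp only [if_pos hx]
    have h1 : ∀ n : ℕ, R ^ (n + 1) * x ^ n * Real.exp (-(R * x)) / n.factorial =
        R * Real.exp (-(R * x)) * ((R * x) ^ n / n.factorial) := by
      intro n
      rw [mul_pow]
      ring
    have h2 : HasSum (fun n : ℕ => (R * x) ^ n / n.factorial) (Real.exp (R * x)) := by
      have := NormedSpace.expSeries_div_hasSum_exp (𝔸 := ℝ) (R * x)
      rwa [← Real.exp_eq_exp_ℝ] at this
    simp only [h1]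
    rw [← ENNReal.ofReal_tsum_of_nonneg]
    · rw [tsum_mul_left, h2.tsum_eq, mul_assoc, ← Real.exp_add]
      simp
    · intro n
      positivity
    · exact h2.summable.mul_left _
  · simp [hx]

theorem tsum_prob (hR : 0 < R) (hm : ∀ n, Measurable (τ n))
    (hl : ∀ n, P.map (τ n) = expMeasure R) (hi : iIndepFun τ P) (t : ℝ) :
    ∑' n, P {ω | ∑ k ∈ Finset.range (n + 1), τ k ω ≤ t} = ENNReal.ofReal (R * t) := by
  have h1 : ∀ n, P {ω | ∑ k ∈ Finset.range (n + 1), τ k ω ≤ t} =
      ∫⁻ x in Set.Iic t, gd R n x := by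
    intro n
    have hms : Measurable fun ω => ∑ k ∈ Finset.range (n + 1), τ k ω :=
      Finset.measurable_sum _ fun k _ => hm k
    have h2 : P {ω | ∑ k ∈ Finset.range (n + 1), τ k ω ≤ t} =
        (P.map (fun ω => ∑ k ∈ Finset.range (n + 1), τ k ω)) (Set.Iic t) := by
      rw [Measure.map_apply hms measurableSet_Iic]
      rfl
    rw [h2, law_sum hR hm hl hi, withDensity_apply _ measurableSet_Iic]
  simp only [h1]
  rw [← lintegral_tsum fun n => (measurable_gd R n).aemeasurable]
  simp only [tsum_gd hR]
  have h3 : ∫⁻ x in Set.Iic t, (if 0 ≤ x then ENNReal.ofReal R else 0) =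
      ∫⁻ x in Set.Iic t, (Set.Ici (0 : ℝ)).indicator (fun _ => ENNReal.ofReal R) x := rfl
  rw [h3, lintegral_indicator measurableSet_Ici, lintegral_const,
    Measure.restrict_restrict measurableSet_Ici, Measure.restrict_apply MeasurableSet.univ,
    Set.univ_inter, Set.Ici_inter_Iic, Real.volume_Icc, sub_zero, ← ENNReal.ofReal_mul hR.le]

end Q290.Cox
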